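import Mathlib
import Pool.Agent.MP_634f99_al.H46.Main

namespace Pool.Agent.Results.MP_634f99_al.CoversAll

open Pool.Agent.MP_634f99_al.H46

/-- The covers of `RS n` in the lattice of all semigroup varieties are exactly the pairwise
distinct joins of `RS n` with `Dxyx`, `Wl`, `Wr`, `N3` and the cyclic groups of order `p n`,
`p` prime. -/
theorem result (n : ℕ) (hn : 1 ≤ n) :
    Set.BijOn (fun i : Fin 4 ⊕ Nat.Primes =>
        joinRS n (Sum.elim ![Dxyx, Wl, Wr, N3] (fun p : Nat.Primes => Cyc (p * n)) i)) Set.univ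
      {V | IsCover {U | IsVariety U} (RS n) V} :=
  bij_all hn

end Pool.Agent.Results.MP_634f99_al.CoversAll
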