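import Mathlib
import Pool.Agent.MP_634f99_al.H46.Main

namespace Pool.Agent.Results.MP_634f99_al.CoversPeriodic

open Pool.Agent.MP_634f99_al.H46

/-- The covers of `RS n` in the lattice of varieties satisfying `x ^ 2 = x ^ (n + 2)` are exactly
the three distinct joins of `RS n` with `Dxyx`, `Wl`, `Wr`. -/
theorem result (n : ℕ) (hn : 1 ≤ n) :
    Set.BijOn (fun i : Fin 3 => joinRS n (![Dxyx, Wl, Wr] i)) Set.univ
      {V | IsCover {U | IsVariety U ∧ ∀ S ∈ U, Periodic n S} (RS n) V} :=
  bij_periodic hn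

end Pool.Agent.Results.MP_634f99_al.CoversPeriodic
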